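import Mathlib

/-!
# The number of states of transition-minimal NFAs is not linear in the nondeterministic state complexity

For every finite alphabet with at least two letters and every constant `C` there is a regular (even
finite) language `L` such that every transition-minimal NFA for `L` has more than `C * nsc L` states.

Proof. Let `p` be a prime, let `Pt` be the affine plane over `ZMod p` (used for the points and for the
non-vertical lines), and let the blocks be the pairs `(x, y)` of triples `x : Fin 3 → Pt` (points) and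
`y : Fin 3 → Pt` (lines) such that the point `∑ x` lies on the line `∑ y`. A block has three left
vertices `(i, x without x i, y)` and three right vertices `(j, x, y without y j)`; all of them are
joined. This graph has `3 p ^ 10` left and `3 p ^ 10` right vertices and is the edge-disjoint union of
`p ^ 11` (at least) complete bipartite graphs `K₃,₃`, and every four-cycle lies in a block. The vertices
are coded by words of length `ℓ = O (log p)` and `L` consists of the words
`c l c l a a c r c r` for the edges `(l, r)`. The repetition ensures that the rectangles `P · S ⊆ L` with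
at least two elements in `P` and in `S` come from complete bipartite subgraphs, so they have at most nine
words. There is an NFA with `O (p ^ 10 ℓ)` states. A state that is not on such a rectangle contributes
only transitions used by a single word, so an NFA for `L` with `s` states has at least
`9 |blocks| - 9 s` transitions. But the NFA with one middle state for each block has only
`6 |blocks| + O (p ^ 10 ℓ)` transitions.
-/

set_option autoImplicit false

namespace Pool.Agent.Results.MP_48fb2a_lc.UnboundedStates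

/-- the number of transitions of an NFA -/
noncomputable def numTrans {α σ : Type} (M : NFA α σ) : ℕ :=
  {t : σ × α × σ | t.2.2 ∈ M.step t.1 t.2.1}.ncard

/-- `M` is an NFA in the sense of the problem (one start state) recognizing `L` -/
def IsFor {α : Type} {n : ℕ} (M : NFA α (Fin n)) (L : Language α) : Prop :=
  (∃ q, M.start = {q}) ∧ M.accepts = L

/-- least number of states of an NFA (with one start state) for `L` -/
noncomputable def nsc {α : Type} (L : Language α) : ℕ :=
  sInf {n | ∃ M : NFA α (Fin n), IsFor M L}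

/-- least number of transitions of an NFA for `L` -/
noncomputable def tc {α : Type} (L : Language α) : ℕ :=
  sInf {k | ∃ n, ∃ M : NFA α (Fin n), IsFor M L ∧ numTrans M = k}

/-- least number of states of an NFA for `L` with `tc L` transitions -/
noncomputable def T {α : Type} (L : Language α) : ℕ :=
  sInf {n | ∃ M : NFA α (Fin n), IsFor M L ∧ numTrans M = tc L}

section basic
variable {α σ : Type} (M : NFA α σ)

theorem mem_from_iff (S : Set σ) (x : List α) :
    x ∈ M.acceptsFrom S ↔ ∃ p ∈ S, x ∈ M.acceptsFrom {p} := by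
  simp only [NFA.mem_acceptsFrom]
  constructor
  · rintro ⟨s, hs, h⟩
    obtain ⟨t, ht, h'⟩ := NFA.mem_evalFrom_iff_exists.1 h
    exact ⟨t, ht, s, hs, h'⟩
  · rintro ⟨t, ht, s, hs, h'⟩
    exact ⟨s, hs, NFA.mem_evalFrom_iff_exists.2 ⟨t, ht, h'⟩⟩

theorem cons_from (p : σ) (a : α) (x : List α) :
    a :: x ∈ M.acceptsFrom {p} ↔ ∃ p' ∈ M.step p a, x ∈ M.acceptsFrom {p'} := by
  rw [NFA.cons_mem_acceptsFrom, NFA.stepSet_singleton, mem_from_iff]

theorem nil_from (p : σ) : [] ∈ M.acceptsFrom {p} ↔ p ∈ M.accept := by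
  simp

/-- `p` is reached from the start by `x`. -/
def Rch (x : List α) (p : σ) : Prop := p ∈ M.evalFrom M.start x

theorem rch_snoc {x : List α} {p p' : σ} {a : α} (h : Rch M x p) (h' : p' ∈ M.step p a) :
    Rch M (x ++ [a]) p' := by
  unfold Rch at *
  rw [NFA.evalFrom_append]
  simp only [NFA.evalFrom_singleton]
  rw [NFA.mem_stepSet]
  exact ⟨p, h, h'⟩

theorem rch_acc {x y : List α} {p : σ} (h : Rch M x p) (h' : y ∈ M.acceptsFrom {p}) :
    x ++ y ∈ M.accepts := by
  rw [NFA.accepts_eq_acceptsFrom_start, NFA.append_mem_acceptsFrom, mem_from_iff]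
  exact ⟨p, h, h'⟩

/-- a big state -/
def Big (p : σ) : Prop :=
  (∃ x₁ x₂, x₁ ≠ x₂ ∧ Rch M x₁ p ∧ Rch M x₂ p) ∧
  (∃ y₁ y₂, y₁ ≠ y₂ ∧ y₁ ∈ M.acceptsFrom {p} ∧ y₂ ∈ M.acceptsFrom {p})

/-- `p` covers `w` -/
def Cov (p : σ) (w : List α) : Prop :=
  ∃ x y, x ++ y = w ∧ Rch M x p ∧ y ∈ M.acceptsFrom {p}

/-- the transition `t` is used by `w` only -/
def Priv (t : σ × α × σ) (w : List α) : Prop :=
  t.2.2 ∈ M.step t.1 t.2.1 ∧ ∃ x y, x ++ t.2.1 :: y = w ∧
    (∀ x', Rch M x' t.1 ↔ x' = x) ∧ (∀ y', y' ∈ M.acceptsFrom {t.2.2} ↔ y' = y)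

theorem priv_inj {t : σ × α × σ} {w w' : List α} (h : Priv M t w) (h' : Priv M t w') : w = w' := by
  obtain ⟨-, x, y, h1, h2, h3⟩ := h
  obtain ⟨-, x', y', h1', h2', h3'⟩ := h'
  have e1 : x = x' := (h2' x).1 ((h2 x).2 rfl)
  have e2 : y = y' := (h3' y).1 ((h3 y).2 rfl)
  rw [← h1, ← h1', e1, e2]

theorem cover (len : ℕ) (hlen : ∀ w ∈ M.accepts, w.length = len) :
    ∀ (y x : List α) (p : σ), Rch M x p → y ∈ M.acceptsFrom {p} →
      (∃ y₁ y₂, y₁ ≠ y₂ ∧ y₁ ∈ M.acceptsFrom {p} ∧ y₂ ∈ M.acceptsFrom {p}) →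
      (∃ q, Big M q ∧ Cov M q (x ++ y)) ∨ (∃ t, Priv M t (x ++ y)) := by
  intro y
  induction y with
  | nil =>
    intro x p hx hy hS
    exfalso
    obtain ⟨y₁, y₂, hne, h1, h2⟩ := hS
    have l0 := hlen _ (rch_acc M hx hy)
    have l1 := hlen _ (rch_acc M hx h1)
    have l2 := hlen _ (rch_acc M hx h2)
    simp only [List.length_append, List.length_nil] at l0 l1 l2
    have : y₁ = [] := List.eq_nil_of_length_eq_zero (by omega)
    have : y₂ = [] := List.eq_nil_of_length_eq_zero (by omega)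
    simp_all
  | cons a y ih =>
    intro x p hx hy hS
    by_cases hP : ∃ x', x' ≠ x ∧ Rch M x' p
    · left
      obtain ⟨x', hne, hx'⟩ := hP
      exact ⟨p, ⟨⟨x', x, hne, hx', hx⟩, hS⟩, x, a :: y, rfl, hx, hy⟩
    · push Not at hP
      obtain ⟨p', hp', hy'⟩ := (cons_from M p a y).1 hy
      by_cases hS' : ∃ y', y' ≠ y ∧ y' ∈ M.acceptsFrom {p'}
      · obtain ⟨y', hne, hy''⟩ := hS'
        have := ih (x ++ [a]) p' (rch_snoc M hx hp') hy' ⟨y', y, hne, hy'', hy'⟩
        simpa using this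
      · push Not at hS'
        right
        refine ⟨(p, a, p'), hp', x, y, rfl, ?_, ?_⟩
        · intro x'
          constructor
          · intro h
            by_contra hne
            exact hP x' hne h
          · rintro rfl; exact hx
        · intro y'
          constructor
          · intro h
            by_contra hne
            exact hS' y' hne h
          · rintro rfl; exact hy'

/-- Main lower bound: number of words is at most transitions plus `K` times states. -/
theorem lower [Fintype σ] {E : Type} [Fintype E] (word : E → List α)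
    (hinj : Function.Injective word) (len : ℕ) (hlen : ∀ e, (word e).length = len)
    (hacc : M.accepts = Set.range word) (hstart : ∃ q, M.start = {q})
    (e₁ e₂ : E) (hne : e₁ ≠ e₂) [Finite α] (K : ℕ)
    (hK : ∀ q, Big M q → {e : E | Cov M q (word e)}.ncard ≤ K) :
    Fintype.card E ≤ numTrans M + K * Fintype.card σ := by
  classical
  have hl : ∀ w ∈ M.accepts, w.length = len := by
    intro w hw
    rw [hacc] at hw
    obtain ⟨e, rfl⟩ := hw
    exact hlen e
  obtain ⟨q0, hq0⟩ := hstart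
  have hall : ∀ e, word e ∈ M.acceptsFrom {q0} := by
    intro e
    rw [← hq0, ← NFA.accepts_eq_acceptsFrom_start, hacc]
    exact ⟨e, rfl⟩
  have key : ∀ e, (∃ q, Big M q ∧ Cov M q (word e)) ∨ (∃ t, Priv M t (word e)) := by
    intro e
    have := cover M len hl (word e) [] q0 (by simp [Rch, hq0]) (hall e)
      ⟨word e₁, word e₂, fun h => hne (hinj h), hall e₁, hall e₂⟩
    simpa using this
  -- the privately covered ones
  have : Fintype α := Fintype.ofFinite α
  let A : Set E := {e | ∃ t, Priv M t (word e)}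
  let B : Set E := ⋃ q : σ, {e | Big M q ∧ Cov M q (word e)}
  have hAB : (Set.univ : Set E) ⊆ A ∪ B := by
    intro e _
    rcases key e with ⟨q, h⟩ | h
    · right
      exact Set.mem_iUnion.2 ⟨q, h⟩
    · left; exact h
  have hA : A.ncard ≤ numTrans M := by
    have hex : ∀ e : E, ∃ t : σ × α × σ, e ∈ A → Priv M t (word e) := by
      intro e
      by_cases he : e ∈ A
      · obtain ⟨t, ht⟩ := he
        exact ⟨t, fun _ => ht⟩
      · obtain ⟨q, -⟩ : ∃ q : σ, True := ⟨q0, trivial⟩
        by_cases hw : ∃ a : α, True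
        · obtain ⟨a, -⟩ := hw
          exact ⟨(q, a, q), fun h => absurd h he⟩
        · exfalso
          have : ∀ e, word e = [] := by
            intro e
            cases h : word e with
            | nil => rfl
            | cons a l => exact absurd ⟨a, trivial⟩ hw
          exact hne (hinj ((this e₁).trans (this e₂).symm))
    choose f hf using hex
    unfold numTrans
    refine Set.ncard_le_ncard_of_injOn f ?_ ?_ (Set.toFinite _)
    · intro e he
      exact (hf e he).1
    · intro e he e' he' h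
      have h1 := hf e he
      have h2 := hf e' he'
      rw [h] at h1
      exact hinj (priv_inj M h1 h2)
  have hB : B.ncard ≤ K * Fintype.card σ := by
    have h1 : B.ncard ≤ ∑ q : σ, {e | Big M q ∧ Cov M q (word e)}.ncard := by
      have := Set.ncard_iUnion_le_of_fintype (fun q : σ => {e | Big M q ∧ Cov M q (word e)})
      exact this
    refine h1.trans ?_
    calc ∑ q : σ, {e | Big M q ∧ Cov M q (word e)}.ncard ≤ ∑ q : σ, K := by
          apply Finset.sum_le_sum
          intro q _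
          by_cases hq : Big M q
          · refine le_trans (Set.ncard_le_ncard ?_ (Set.toFinite _)) (hK q hq)
            intro e he
            exact he.2
          · have : {e | Big M q ∧ Cov M q (word e)} = ∅ := by
              ext e
              simp [hq]
            rw [this]
            simp
      _ = K * Fintype.card σ := by
          simp [mul_comm]
  have h2 : (Set.univ : Set E).ncard ≤ A.ncard + B.ncard :=
    (Set.ncard_le_ncard hAB (Set.toFinite _)).trans (Set.ncard_union_le _ _)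
  rw [Set.ncard_univ, Nat.card_eq_fintype_card] at h2
  omega

end basic

section transport

/-- renaming the states -/
def ren {α σ τ : Type} (M : NFA α σ) (e : σ ≃ τ) : NFA α τ where
  step p a := {q | e.symm q ∈ M.step (e.symm p) a}
  start := {q | e.symm q ∈ M.start}
  accept := {q | e.symm q ∈ M.accept}

theorem ren_from {α σ τ : Type} (M : NFA α σ) (e : σ ≃ τ) (w : List α) (p : τ) :
    w ∈ (ren M e).acceptsFrom {p} ↔ w ∈ M.acceptsFrom {e.symm p} := by
  induction w generalizing p with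
  | nil => rw [nil_from, nil_from]; rfl
  | cons a w ih =>
    rw [cons_from, cons_from]
    constructor
    · rintro ⟨p', hp', h⟩
      exact ⟨e.symm p', hp', (ih p').1 h⟩
    · rintro ⟨p', hp', h⟩
      refine ⟨e p', ?_, (ih (e p')).2 (by simpa using h)⟩
      show e.symm (e p') ∈ M.step (e.symm p) a
      simpa using hp'

theorem ren_accepts {α σ τ : Type} (M : NFA α σ) (e : σ ≃ τ) :
    (ren M e).accepts = M.accepts := by
  ext w
  rw [NFA.accepts_eq_acceptsFrom_start, NFA.accepts_eq_acceptsFrom_start, mem_from_iff,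
    mem_from_iff M]
  constructor
  · rintro ⟨p, hp, h⟩
    exact ⟨e.symm p, hp, (ren_from M e w p).1 h⟩
  · rintro ⟨p, hp, h⟩
    refine ⟨e p, ?_, (ren_from M e w (e p)).2 (by simpa using h)⟩
    show e.symm (e p) ∈ M.start
    simpa using hp

theorem ren_numTrans {α σ τ : Type} (M : NFA α σ) (e : σ ≃ τ) :
    numTrans (ren M e) = numTrans M := by
  unfold numTrans
  have : {t : τ × α × τ | t.2.2 ∈ (ren M e).step t.1 t.2.1} =
      (fun t : σ × α × σ => (e t.1, t.2.1, e t.2.2)) '' {t : σ × α × σ | t.2.2 ∈ M.step t.1 t.2.1} := by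
    ext ⟨p, a, q⟩
    simp only [Set.mem_image, Prod.mk.injEq, Prod.exists, Set.mem_ofPred_eq]
    constructor
    · intro h
      exact ⟨e.symm p, a, e.symm q, h, by simp⟩
    · rintro ⟨p', a', q', h, rfl, rfl, rfl⟩
      show e.symm (e q') ∈ M.step (e.symm (e p')) a'
      simpa using h
  rw [this, Set.ncard_image_of_injective]
  rintro ⟨p, a, q⟩ ⟨p', a', q'⟩ h
  simp only [Prod.mk.injEq, EmbeddingLike.apply_eq_iff_eq] at h
  simp [h]

theorem ren_start {α σ τ : Type} (M : NFA α σ) (e : σ ≃ τ) (h : ∃ q, M.start = {q}) :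
    ∃ q, (ren M e).start = {q} := by
  obtain ⟨q, hq⟩ := h
  refine ⟨e q, ?_⟩
  ext p
  show e.symm p ∈ M.start ↔ _
  rw [hq]
  simp [Equiv.symm_apply_eq]

end transport

section build
variable {α VL VR Mid : Type} (a : α) (k : ℕ) (u : VL → List α) (v : VR → List α)
  (R1 : VL → Mid → Prop) (R2 : Mid → VR → Prop)

/-- states of the layered automaton -/
abbrev St (VL VR Mid : Type) (k : ℕ) : Type :=
  Option (VL × Fin (k+1)) ⊕ (Mid ⊕ VR × Fin (k+1))

inductive Stp : St VL VR Mid k → α → St VL VR Mid k → Prop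
  | st (l : VL) (c : Fin (k+1)) (b : α) (h : (u l)[0]? = some b) (hc : c.val = 1) :
      Stp (Sum.inl none) b (Sum.inl (some (l, c)))
  | lf (l : VL) (c c' : Fin (k+1)) (b : α) (h : (u l)[c.val]? = some b) (hc : c'.val = c.val + 1) :
      Stp (Sum.inl (some (l, c))) b (Sum.inl (some (l, c')))
  | m1 (l : VL) (c : Fin (k+1)) (m : Mid) (hc : c.val = k) (h : R1 l m) :
      Stp (Sum.inl (some (l, c))) a (Sum.inr (Sum.inl m))
  | m2 (m : Mid) (r : VR) (c : Fin (k+1)) (hc : c.val = 0) (h : R2 m r) :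
      Stp (Sum.inr (Sum.inl m)) a (Sum.inr (Sum.inr (r, c)))
  | rt (r : VR) (c c' : Fin (k+1)) (b : α) (h : (v r)[c.val]? = some b) (hc : c'.val = c.val + 1) :
      Stp (Sum.inr (Sum.inr (r, c))) b (Sum.inr (Sum.inr (r, c')))

/-- the layered automaton -/
def LA : NFA α (St VL VR Mid k) where
  step p b := {q | Stp a k u v R1 R2 p b q}
  start := {Sum.inl none}
  accept := {q | ∃ (r : VR) (c : Fin (k+1)), c.val = k ∧ q = Sum.inr (Sum.inr (r, c))}

variable (hu : ∀ l, (u l).length = k) (hv : ∀ r, (v r).length = k)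

include hv in
theorem acc_right (w : List α) : ∀ (r : VR) (c : Fin (k+1)),
    w ∈ (LA a k u v R1 R2).acceptsFrom {Sum.inr (Sum.inr (r, c))} ↔ w = (v r).drop c.val := by
  induction w with
  | nil =>
    intro r c
    rw [nil_from]
    constructor
    · rintro ⟨r', c', hc', h⟩
      simp only [Sum.inr.injEq, Prod.mk.injEq] at h
      obtain ⟨rfl, rfl⟩ := h
      rw [List.drop_eq_nil_of_le]
      rw [hv]; omega
    · intro h
      have h2 : ((v r).drop c.val).length = 0 := by rw [← h]; rfl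
      rw [List.length_drop, hv] at h2
      have := c.isLt
      exact ⟨r, c, by omega, rfl⟩
  | cons b w ih =>
    intro r c
    rw [cons_from]
    constructor
    · rintro ⟨p', hp', h⟩
      cases hp' with
      | rt r c c' b hb hc =>
        rw [ih r c'] at h
        obtain ⟨hlt, he⟩ := List.getElem?_eq_some_iff.1 hb
        rw [h, hc, ← he]
        exact (List.drop_eq_getElem_cons hlt).symm
    · intro h
      have hlt : c.val < (v r).length := by
        by_contra hcon
        rw [List.drop_eq_nil_of_le (by omega)] at h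
        cases h
      have hd := List.drop_eq_getElem_cons hlt
      rw [hd] at h
      simp only [List.cons.injEq] at h
      have hlt' : c.val < k := by have := hv r; omega
      refine ⟨Sum.inr (Sum.inr (r, ⟨c.val + 1, by omega⟩)), ?_, ?_⟩
      · apply Stp.rt
        · rw [List.getElem?_eq_getElem hlt, h.1]
        · rfl
      · rw [ih]
        exact h.2

include hv in
theorem acc_mid (w : List α) (m : Mid) :
    w ∈ (LA a k u v R1 R2).acceptsFrom {Sum.inr (Sum.inl m)} ↔ ∃ r, R2 m r ∧ w = a :: v r := by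
  cases w with
  | nil =>
    rw [nil_from]
    constructor
    · rintro ⟨r', c', hc', h⟩
      cases h
    · rintro ⟨r, _, h⟩
      cases h
  | cons b w =>
    rw [cons_from]
    constructor
    · rintro ⟨p', hp', h⟩
      cases hp' with
      | m2 m r c hc h' =>
        rw [acc_right a k u v R1 R2 hv] at h
        rw [hc] at h
        exact ⟨r, h', by simp [h]⟩
    · rintro ⟨r, h', h⟩
      simp only [List.cons.injEq] at h
      obtain ⟨hb, rfl⟩ := h
      rw [hb]
      refine ⟨Sum.inr (Sum.inr (r, 0)), ?_, ?_⟩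
      · exact Stp.m2 m r 0 rfl h'
      · rw [acc_right a k u v R1 R2 hv]
        simp

include hu hv in
theorem acc_left (w : List α) : ∀ (l : VL) (c : Fin (k+1)),
    w ∈ (LA a k u v R1 R2).acceptsFrom {Sum.inl (some (l, c))} ↔
      ∃ m r, R1 l m ∧ R2 m r ∧ w = (u l).drop c.val ++ a :: a :: v r := by
  induction w with
  | nil =>
    intro l c
    rw [nil_from]
    constructor
    · rintro ⟨r', c', hc', h⟩
      cases h
    · rintro ⟨m, r, _, _, h⟩
      simp at h
  | cons b w ih =>
    intro l c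
    rw [cons_from]
    constructor
    · rintro ⟨p', hp', h⟩
      cases hp' with
      | lf l c c' b hb hc =>
        rw [ih l c'] at h
        obtain ⟨m, r, h1, h2, h3⟩ := h
        obtain ⟨hlt, he⟩ := List.getElem?_eq_some_iff.1 hb
        refine ⟨m, r, h1, h2, ?_⟩
        rw [List.drop_eq_getElem_cons hlt, h3, hc, ← he]
        rfl
      | m1 l c m hc h' =>
        rw [acc_mid a k u v R1 R2 hv] at h
        obtain ⟨r, h1, h2⟩ := h
        refine ⟨m, r, h', h1, ?_⟩
        rw [hc, List.drop_eq_nil_of_le (by rw [hu])]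
        simp [h2]
    · rintro ⟨m, r, h1, h2, h⟩
      by_cases hlt : c.val < k
      · have hlt' : c.val < (u l).length := by rw [hu]; exact hlt
        have hd := List.drop_eq_getElem_cons hlt'
        rw [hd] at h
        simp only [List.cons_append, List.cons.injEq] at h
        refine ⟨Sum.inl (some (l, ⟨c.val + 1, by omega⟩)), ?_, ?_⟩
        · apply Stp.lf
          · rw [List.getElem?_eq_getElem hlt', h.1]
          · rfl
        · rw [ih]
          exact ⟨m, r, h1, h2, h.2⟩
      · have hck : c.val = k := by have := c.isLt; omega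
        rw [hck, List.drop_eq_nil_of_le (by rw [hu])] at h
        simp only [List.nil_append, List.cons.injEq] at h
        obtain ⟨hb, rfl⟩ := h
        rw [hb]
        refine ⟨Sum.inr (Sum.inl m), Stp.m1 l c m hck h1, ?_⟩
        rw [acc_mid a k u v R1 R2 hv]
        exact ⟨r, h2, rfl⟩

include hu hv in
theorem acc_start (hk : 1 ≤ k) (w : List α) :
    w ∈ (LA a k u v R1 R2).accepts ↔
      ∃ l m r, R1 l m ∧ R2 m r ∧ w = u l ++ a :: a :: v r := by
  rw [NFA.accepts_eq_acceptsFrom_start]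
  show w ∈ (LA a k u v R1 R2).acceptsFrom {Sum.inl none} ↔ _
  cases w with
  | nil =>
    rw [nil_from]
    constructor
    · rintro ⟨r', c', hc', h⟩
      cases h
    · rintro ⟨l, m, r, _, _, h⟩
      simp at h
  | cons b w =>
    rw [cons_from]
    constructor
    · rintro ⟨p', hp', h⟩
      cases hp' with
      | st l c b hb hc =>
        rw [acc_left a k u v R1 R2 hu hv] at h
        obtain ⟨m, r, h1, h2, h3⟩ := h
        obtain ⟨hlt, he⟩ := List.getElem?_eq_some_iff.1 hb
        refine ⟨l, m, r, h1, h2, ?_⟩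
        have := List.drop_eq_getElem_cons hlt
        rw [List.drop_zero] at this
        rw [this, h3, hc, ← he]
        rfl
    · rintro ⟨l, m, r, h1, h2, h⟩
      have hlt' : 0 < (u l).length := by rw [hu]; omega
      have hd := List.drop_eq_getElem_cons hlt'
      rw [List.drop_zero] at hd
      rw [hd] at h
      simp only [List.cons_append, List.cons.injEq] at h
      refine ⟨Sum.inl (some (l, ⟨1, by omega⟩)), ?_, ?_⟩
      · apply Stp.st
        · rw [List.getElem?_eq_getElem hlt', h.1]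
        · rfl
      · rw [acc_left a k u v R1 R2 hu hv]
        exact ⟨m, r, h1, h2, h.2⟩

end build

section count
variable {α VL VR Mid : Type} [Fintype VL] [Fintype VR] [Fintype Mid] [Finite α]
  (a : α) (k : ℕ) (u : VL → List α) (v : VR → List α)
  (R1 : VL → Mid → Prop) (R2 : Mid → VR → Prop)

theorem card_St : Fintype.card (St VL VR Mid k) =
    Fintype.card VL * (k+1) + 1 + (Fintype.card Mid + Fintype.card VR * (k+1)) := by
  simp [St]

open Classical in
theorem numTrans_LA :
    numTrans (LA a k u v R1 R2) ≤ (Fintype.card VL + Fintype.card VL * (k+1) + Fintype.card VR * (k+1))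
      + {x : VL × Mid | R1 x.1 x.2}.ncard + {x : Mid × VR | R2 x.1 x.2}.ncard := by
  have : Fintype α := Fintype.ofFinite α
  unfold numTrans
  let A1 : Set (St VL VR Mid k × α × St VL VR Mid k) :=
    (fun l : VL => (Sum.inl none, ((u l)[0]?).getD a,
      Sum.inl (some (l, if h : 1 < k + 1 then (⟨1, h⟩ : Fin (k+1)) else 0)))) '' Set.univ
  let A2 : Set (St VL VR Mid k × α × St VL VR Mid k) :=
    (fun x : VL × Fin (k+1) => (Sum.inl (some (x.1, x.2)), ((u x.1)[x.2.val]?).getD a,
      Sum.inl (some (x.1, if h : x.2.val + 1 < k + 1 then (⟨x.2.val + 1, h⟩ : Fin (k+1)) else 0)))) '' Set.univ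
  let A3 : Set (St VL VR Mid k × α × St VL VR Mid k) :=
    (fun x : VL × Mid => (Sum.inl (some (x.1, Fin.last k)), a, Sum.inr (Sum.inl x.2))) ''
      {x : VL × Mid | R1 x.1 x.2}
  let A4 : Set (St VL VR Mid k × α × St VL VR Mid k) :=
    (fun x : Mid × VR => (Sum.inr (Sum.inl x.1), a, Sum.inr (Sum.inr (x.2, (0 : Fin (k+1)))))) ''
      {x : Mid × VR | R2 x.1 x.2}
  let A5 : Set (St VL VR Mid k × α × St VL VR Mid k) :=
    (fun x : VR × Fin (k+1) => (Sum.inr (Sum.inr (x.1, x.2)), ((v x.1)[x.2.val]?).getD a,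
      Sum.inr (Sum.inr (x.1, if h : x.2.val + 1 < k + 1 then (⟨x.2.val + 1, h⟩ : Fin (k+1)) else 0)))) '' Set.univ
  have hsub : {t : St VL VR Mid k × α × St VL VR Mid k | t.2.2 ∈ (LA a k u v R1 R2).step t.1 t.2.1} ⊆
      (((A1 ∪ A2) ∪ A5) ∪ A3) ∪ A4 := by
    rintro ⟨p, b, q⟩ h
    change Stp a k u v R1 R2 p b q at h
    cases h with
    | st l c b hb hc =>
      left; left; left; left
      refine ⟨l, trivial, ?_⟩
      have h1 : 1 < k + 1 := by have := c.isLt; omega
      have : c = ⟨1, h1⟩ := Fin.ext hc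
      simp [hb, h1, this]
    | lf l c c' b hb hc =>
      left; left; left; right
      refine ⟨(l, c), trivial, ?_⟩
      have h1 : c.val + 1 < k + 1 := by have := c'.isLt; omega
      have : c' = ⟨c.val + 1, h1⟩ := Fin.ext hc
      subst this
      simp only [hb, Option.getD_some, h1, dif_pos]
    | m1 l c m hc h' =>
      left; right
      refine ⟨(l, m), h', ?_⟩
      have : c = Fin.last k := Fin.ext hc
      simp [this]
    | m2 m r c hc h' =>
      right
      refine ⟨(m, r), h', ?_⟩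
      have : c = 0 := Fin.ext hc
      simp [this]
    | rt r c c' b hb hc =>
      left; left; right
      refine ⟨(r, c), trivial, ?_⟩
      have h1 : c.val + 1 < k + 1 := by have := c'.isLt; omega
      have : c' = ⟨c.val + 1, h1⟩ := Fin.ext hc
      subst this
      simp only [hb, Option.getD_some, h1, dif_pos]
  have c1 : A1.ncard ≤ Fintype.card VL := by
    refine (Set.ncard_image_le Set.finite_univ).trans ?_
    rw [Set.ncard_univ, Nat.card_eq_fintype_card]
  have c2 : A2.ncard ≤ Fintype.card VL * (k+1) := by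
    refine (Set.ncard_image_le Set.finite_univ).trans ?_
    rw [Set.ncard_univ, Nat.card_eq_fintype_card, Fintype.card_prod, Fintype.card_fin]
  have c5 : A5.ncard ≤ Fintype.card VR * (k+1) := by
    refine (Set.ncard_image_le Set.finite_univ).trans ?_
    rw [Set.ncard_univ, Nat.card_eq_fintype_card, Fintype.card_prod, Fintype.card_fin]
  have c3 : A3.ncard ≤ {x : VL × Mid | R1 x.1 x.2}.ncard :=
    Set.ncard_image_le (Set.toFinite _)
  have c4 : A4.ncard ≤ {x : Mid × VR | R2 x.1 x.2}.ncard :=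
    Set.ncard_image_le (Set.toFinite _)
  have hfin := (Set.ncard_le_ncard hsub (Set.toFinite _))
  have u1 := Set.ncard_union_le (((A1 ∪ A2) ∪ A5) ∪ A3) A4
  have u2 := Set.ncard_union_le ((A1 ∪ A2) ∪ A5) A3
  have u3 := Set.ncard_union_le (A1 ∪ A2) A5
  have u4 := Set.ncard_union_le A1 A2
  omega

end count

/-- points and lines of the affine plane, non-vertical lines -/
abbrev Pt (p : ℕ) : Type := ZMod p × ZMod p

def Inc (p : ℕ) (P L : Pt p) : Prop := P.2 = L.1 * P.1 + L.2

section design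
variable (p : ℕ) [hp : Fact p.Prime]

theorem inc_c4 {P P' L L' : Pt p} (h1 : Inc p P L) (h2 : Inc p P L') (h3 : Inc p P' L)
    (h4 : Inc p P' L') : P = P' ∨ L = L' := by
  unfold Inc at *
  have h : (L.1 - L'.1) * (P.1 - P'.1) = 0 := by
    have e1 : L.1 * P.1 + L.2 = L'.1 * P.1 + L'.2 := h1.symm.trans h2
    have e2 : L.1 * P'.1 + L.2 = L'.1 * P'.1 + L'.2 := h3.symm.trans h4
    linear_combination e1 - e2
  rcases mul_eq_zero.1 h with h | h
  · right
    have h5 : L.1 = L'.1 := sub_eq_zero.1 h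
    have e1 : L.1 * P.1 + L.2 = L'.1 * P.1 + L'.2 := h1.symm.trans h2
    rw [h5] at e1
    have h6 : L.2 = L'.2 := add_left_cancel e1
    exact Prod.ext h5 h6
  · left
    have h5 : P.1 = P'.1 := sub_eq_zero.1 h
    refine Prod.ext h5 ?_
    rw [h1, h3, h5]

abbrev VL (p : ℕ) : Type := Fin 3 × (Fin 2 → Pt p) × (Fin 3 → Pt p)
abbrev VR (p : ℕ) : Type := Fin 3 × (Fin 3 → Pt p) × (Fin 2 → Pt p)

abbrev Blk (p : ℕ) : Type :=
  {t : (Fin 3 → Pt p) × (Fin 3 → Pt p) // Inc p (∑ i, t.1 i) (∑ j, t.2 j)}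

def rem {X : Type} (i : Fin 3) (x : Fin 3 → X) : Fin 2 → X := fun k => x (i.succAbove k)

theorem rem_eq {X : Type} {i : Fin 3} {x x' : Fin 3 → X} (h : rem i x = rem i x') (k : Fin 3)
    (hk : k ≠ i) : x k = x' k := by
  obtain ⟨m, rfl⟩ := Fin.exists_succAbove_eq hk
  exact congrFun h m

theorem rem_sum {X : Type} [AddCommGroup X] {i : Fin 3} {x x' : Fin 3 → X}
    (h : rem i x = rem i x') (hs : ∑ k, x k = ∑ k, x' k) : x = x' := by
  rw [Fin.sum_univ_succAbove x i, Fin.sum_univ_succAbove x' i] at hs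
  have h1 : (∑ k, x (i.succAbove k)) = ∑ k, x' (i.succAbove k) := by
    have := congrArg (fun f => ∑ k, f k) h
    exact this
  rw [h1] at hs
  have h2 := add_right_cancel hs
  funext k
  by_cases hk : k = i
  · rw [hk, h2]
  · exact rem_eq h k hk

def lv (i : Fin 3) (t : Blk p) : VL p := (i, rem i t.1.1, t.1.2)
def rv (j : Fin 3) (t : Blk p) : VR p := (j, t.1.1, rem j t.1.2)

/-- adjacency -/
def Adj (l : VL p) (r : VR p) : Prop := ∃ i j t, l = lv p i t ∧ r = rv p j t

theorem adj_iff (l : VL p) (r : VR p) : Adj p l r ↔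
    l.2.1 = rem l.1 r.2.1 ∧ r.2.2 = rem r.1 l.2.2 ∧ Inc p (∑ i, r.2.1 i) (∑ j, l.2.2 j) := by
  constructor
  · rintro ⟨i, j, t, rfl, rfl⟩
    exact ⟨rfl, rfl, t.2⟩
  · rintro ⟨h1, h2, h3⟩
    exact ⟨l.1, r.1, ⟨(r.2.1, l.2.2), h3⟩, Prod.ext rfl (Prod.ext h1 rfl),
      Prod.ext rfl (Prod.ext rfl h2)⟩

theorem adj_c4 {l l' : VL p} {r r' : VR p} (hl : l ≠ l') (hr : r ≠ r')
    (h1 : Adj p l r) (h2 : Adj p l r') (h3 : Adj p l' r) (h4 : Adj p l' r') :
    l.1 ≠ l'.1 ∧ r.1 ≠ r'.1 := by
  rw [adj_iff] at h1 h2 h3 h4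
  obtain ⟨i, ξ, y⟩ := l
  obtain ⟨i', ξ', y'⟩ := l'
  obtain ⟨j, x, η⟩ := r
  obtain ⟨j', x', η'⟩ := r'
  simp only at h1 h2 h3 h4 ⊢
  obtain ⟨a1, b1, c1⟩ := h1
  obtain ⟨a2, b2, c2⟩ := h2
  obtain ⟨a3, b3, c3⟩ := h3
  obtain ⟨a4, b4, c4⟩ := h4
  have X1 : rem i x = rem i x' := a1.symm.trans a2
  have X2 : rem i' x = rem i' x' := a3.symm.trans a4
  have Y1 : rem j y = rem j y' := b1.symm.trans b3
  have Y2 : rem j' y = rem j' y' := b2.symm.trans b4
  have hii : i ≠ i' := by
    rintro rfl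
    have hξ : ξ = ξ' := a1.trans a3.symm
    have hy : y ≠ y' := by
      rintro rfl
      exact hl (by rw [hξ])
    have hjj : j = j' := by
      by_contra hne
      apply hy
      funext k
      by_cases hk : k = j
      · exact rem_eq Y2 k (by rw [hk]; exact hne)
      · exact rem_eq Y1 k hk
    subst hjj
    have hη : η = η' := b1.trans b2.symm
    have hx : x ≠ x' := by
      rintro rfl
      exact hr (by rw [hη])
    rcases inc_c4 p c1 c3 c2 c4 with h | h
    · exact hx (rem_sum X1 h)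
    · exact hy (rem_sum Y1 h)
  refine ⟨hii, ?_⟩
  rintro rfl
  have hx : x = x' := by
    funext k
    by_cases hk : k = i
    · exact rem_eq X2 k (by rw [hk]; exact hii)
    · exact rem_eq X1 k hk
  exact hr (by rw [hx, b1.trans b2.symm])

theorem card_blk [Fintype (Blk p)] : p ^ 11 ≤ Fintype.card (Blk p) := by
  have hp0 : NeZero p := ⟨hp.out.ne_zero⟩
  let f : (Fin 2 → Pt p) × ZMod p × (Fin 3 → Pt p) → Blk p := fun z =>
    ⟨(Fin.cons (z.2.1, (∑ j, z.2.2 j).1 * (z.2.1 + (∑ k, z.1 k).1) + (∑ j, z.2.2 j).2 -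
        (∑ k, z.1 k).2) z.1, z.2.2), by
      simp only
      rw [Fin.sum_univ_succ]
      simp only [Fin.cons_zero, Fin.cons_succ]
      unfold Inc
      simp only [Prod.fst_add, Prod.snd_add]
      ring⟩
  have hf : Function.Injective f := by
    rintro ⟨ξ, c, y⟩ ⟨ξ', c', y'⟩ h
    have h1 := congrArg Subtype.val h
    simp only [f, Prod.mk.injEq] at h1
    obtain ⟨h2, h3⟩ := h1
    have h4 := congrFun h2 0
    simp only [Fin.cons_zero, Prod.mk.injEq] at h4
    have h5 : ξ = ξ' := by
      funext k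
      have := congrFun h2 k.succ
      simpa using this
    simp only [Prod.mk.injEq]
    exact ⟨h5, h4.1, h3⟩
  have := Fintype.card_le_of_injective f hf
  simp only [Fintype.card_prod, Fintype.card_fun, Fintype.card_fin, ZMod.card] at this
  calc p ^ 11 = (p * p) ^ 2 * (p * (p * p) ^ 3) := by ring
    _ ≤ _ := this

theorem card_VL : Nat.card (VL p) = 3 * p ^ 10 := by
  have hp0 : NeZero p := ⟨hp.out.ne_zero⟩
  simp only [Nat.card_eq_fintype_card, Fintype.card_prod, Fintype.card_fun, Fintype.card_fin, ZMod.card]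
  ring

theorem card_VR : Nat.card (VR p) = 3 * p ^ 10 := by
  have hp0 : NeZero p := ⟨hp.out.ne_zero⟩
  simp only [Nat.card_eq_fintype_card, Fintype.card_prod, Fintype.card_fun, Fintype.card_fin, ZMod.card]
  ring

end design

section code
/-- an injective code by words of length `ℓ` -/
theorem exists_code {α V : Type} [Finite V] (a b : α) (hab : a ≠ b) (ℓ : ℕ)
    (h : Nat.card V ≤ 2 ^ ℓ) : ∃ c : V → List α, Function.Injective c ∧ ∀ x, (c x).length = ℓ := by
  have : Fintype V := Fintype.ofFinite V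
  have hc : Fintype.card V ≤ Fintype.card (Fin ℓ → Bool) := by
    rw [Nat.card_eq_fintype_card] at h
    simpa using h
  obtain ⟨f⟩ := Function.Embedding.nonempty_of_card_le hc
  refine ⟨fun x => List.ofFn (fun i => if f x i then a else b), ?_, ?_⟩
  · intro x y hxy
    apply f.injective
    have h1 := List.ofFn_injective hxy
    funext i
    have h2 := congrFun h1 i
    by_cases hx : f x i = true <;> by_cases hy : f y i = true
    · rw [hx, hy]
    · simp [hx, hy, hab] at h2
    · simp [hx, hy, hab.symm] at h2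
    · simp only [Bool.not_eq_true] at hx hy
      rw [hx, hy]
  · intro x
    simp

variable {α VL VR : Type} (a : α) (cL : VL → List α) (cR : VR → List α)

/-- the word of the pair -/
def W (l : VL) (r : VR) : List α := (cL l ++ cL l) ++ a :: a :: (cR r ++ cR r)

variable (ℓ : ℕ) (hL : ∀ l, (cL l).length = ℓ) (hR : ∀ r, (cR r).length = ℓ)
  (iL : Function.Injective cL) (iR : Function.Injective cR)

include hL hR in
theorem W_length (l : VL) (r : VR) : (W a cL cR l r).length = 4 * ℓ + 2 := by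
  simp [W, hL, hR]; omega

include hL in
theorem W_take (l : VL) (r : VR) : (W a cL cR l r).take ℓ = cL l := by
  unfold W
  rw [List.append_assoc, List.take_append_of_le_length (by rw [hL])]
  rw [List.take_of_length_le (by rw [hL])]

include hL in
theorem W_mid (l : VL) (r : VR) : ((W a cL cR l r).drop ℓ).take ℓ = cL l := by
  unfold W
  rw [List.append_assoc, List.drop_append_of_le_length (by rw [hL]),
    List.drop_eq_nil_of_le (by rw [hL]), List.nil_append,
    List.take_append_of_le_length (by rw [hL]), List.take_of_length_le (by rw [hL])]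

theorem W_eq' (l : VL) (r : VR) :
    W a cL cR l r = (cL l ++ cL l ++ [a, a] ++ cR r) ++ cR r := by
  simp [W]

include hL hR in
theorem W_drop (l : VL) (r : VR) : (W a cL cR l r).drop (3 * ℓ + 2) = cR r := by
  rw [W_eq', List.drop_append_of_le_length (by simp [hL, hR]; omega),
    List.drop_eq_nil_of_le (by simp [hL, hR]; omega), List.nil_append]

include hL hR in
theorem W_mid' (l : VL) (r : VR) : ((W a cL cR l r).drop (2 * ℓ + 2)).take ℓ = cR r := by
  rw [W_eq', List.append_assoc (cL l ++ cL l ++ [a, a]),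
    List.drop_append_of_le_length (by simp [hL]; omega),
    List.drop_eq_nil_of_le (by simp [hL]; omega), List.nil_append,
    List.take_append_of_le_length (by rw [hR]), List.take_of_length_le (by rw [hR])]

include hL hR iL iR in
theorem W_inj {l l' : VL} {r r' : VR} (h : W a cL cR l r = W a cL cR l' r') : l = l' ∧ r = r' := by
  constructor
  · apply iL
    rw [← W_take a cL cR ℓ hL l r, h, W_take a cL cR ℓ hL]
  · apply iR
    rw [← W_drop a cL cR ℓ hL hR l r, h, W_drop a cL cR ℓ hL hR]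

include hL hR iL in
theorem early {x x' y : List α} {l l' : VL} {r r' : VR} (h : x ++ y = W a cL cR l r)
    (h' : x' ++ y = W a cL cR l' r') (hx : x.length ≤ ℓ) : x = x' := by
  have e1 : x.length = x'.length := by
    have h1 := congrArg List.length h
    have h2 := congrArg List.length h'
    rw [W_length a cL cR ℓ hL hR, List.length_append] at h1 h2
    omega
  have e2 : l = l' := by
    apply iL
    rw [← W_mid a cL cR ℓ hL l r, ← W_mid a cL cR ℓ hL l' r', ← h, ← h']
    have d1 : x.drop ℓ = [] := List.drop_eq_nil_of_le hx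
    have d2 : x'.drop ℓ = [] := List.drop_eq_nil_of_le (by omega)
    rw [List.drop_append, List.drop_append, d1, d2, e1]
  subst e2
  have e3 : x = (cL l).take x.length := by
    rw [← W_take a cL cR ℓ hL l r, ← h, List.take_take, min_eq_left hx]
    simp
  have e4 : x' = (cL l).take x'.length := by
    rw [← W_take a cL cR ℓ hL l r', ← h', List.take_take, min_eq_left (by omega)]
    simp
  rw [e3, e4, e1]

include hL hR iR in
theorem late {x y y' : List α} {l l' : VL} {r r' : VR} (h : x ++ y = W a cL cR l r)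
    (h' : x ++ y' = W a cL cR l' r') (hx : 3 * ℓ + 2 ≤ x.length) : y = y' := by
  have e2 : r = r' := by
    apply iR
    rw [← W_mid' a cL cR ℓ hL hR l r, ← W_mid' a cL cR ℓ hL hR l' r', ← h, ← h']
    rw [List.take_drop, List.take_drop,
      List.take_append_of_le_length (by omega), List.take_append_of_le_length (by omega)]
  subst e2
  have e3 : y = (cR r).drop (x.length - (3 * ℓ + 2)) := by
    rw [← W_drop a cL cR ℓ hL hR l r, ← h, List.drop_drop,
      show 3 * ℓ + 2 + (x.length - (3 * ℓ + 2)) = x.length by omega]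
    simp
  have e4 : y' = (cR r).drop (x.length - (3 * ℓ + 2)) := by
    rw [← W_drop a cL cR ℓ hL hR l' r, ← h', List.drop_drop,
      show 3 * ℓ + 2 + (x.length - (3 * ℓ + 2)) = x.length by omega]
    simp
  rw [e3, e4]

include hL iL in
theorem left_eq {x y y' : List α} {l l' : VL} {r r' : VR} (h : x ++ y = W a cL cR l r)
    (h' : x ++ y' = W a cL cR l' r') (hx : ℓ ≤ x.length) : l = l' := by
  apply iL
  rw [← W_take a cL cR ℓ hL l r, ← W_take a cL cR ℓ hL l' r', ← h, ← h',
    List.take_append_of_le_length hx, List.take_append_of_le_length hx]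

include hL hR iR in
theorem right_eq {x x' y : List α} {l l' : VL} {r r' : VR} (h : x ++ y = W a cL cR l r)
    (h' : x' ++ y = W a cL cR l' r') (hx : x.length ≤ 3 * ℓ + 2) : r = r' := by
  have e1 : x.length = x'.length := by
    have h1 := congrArg List.length h
    have h2 := congrArg List.length h'
    rw [W_length a cL cR ℓ hL hR, List.length_append] at h1 h2
    omega
  apply iR
  have d1 : x.drop (3 * ℓ + 2) = [] := List.drop_eq_nil_of_le hx
  have d2 : x'.drop (3 * ℓ + 2) = [] := List.drop_eq_nil_of_le (by omega)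
  rw [← W_drop a cL cR ℓ hL hR l r, ← W_drop a cL cR ℓ hL hR l' r', ← h, ← h',
    List.drop_append, List.drop_append, d1, d2, e1]

end code


section final
variable {α : Type} (a : α) (p : ℕ) [hp : Fact p.Prime]
  (cL : VL p → List α) (cR : VR p → List α) (ℓ : ℕ)
  (hL : ∀ l, (cL l).length = ℓ) (hR : ∀ r, (cR r).length = ℓ)
  (iL : Function.Injective cL) (iR : Function.Injective cR)

/-- the word of an indexed pair of adjacent vertices -/
def word (e : Fin 3 × Fin 3 × Blk p) : List α := W a cL cR (lv p e.1 e.2.2) (rv p e.2.1 e.2.2)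

/-- the language -/
def Lg : Language α := Set.range (word a p cL cR)

omit hp in
theorem mem_Lg (w : List α) : w ∈ Lg a p cL cR ↔ ∃ l r, Adj p l r ∧ w = W a cL cR l r := by
  constructor
  · rintro ⟨e, rfl⟩
    exact ⟨_, _, ⟨e.1, e.2.1, e.2.2, rfl, rfl⟩, rfl⟩
  · rintro ⟨l, r, ⟨i, j, t, rfl, rfl⟩, rfl⟩
    exact ⟨(i, j, t), rfl⟩

omit hp in
include hL hR iL iR in
theorem word_inj : Function.Injective (word a p cL cR) := by
  rintro ⟨i, j, t⟩ ⟨i', j', t'⟩ h
  obtain ⟨h1, h2⟩ := W_inj a cL cR ℓ hL hR iL iR h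
  simp only [lv, rv, Prod.mk.injEq] at h1 h2
  obtain ⟨rfl, _, h3⟩ := h1
  obtain ⟨rfl, h4, _⟩ := h2
  have : t = t' := Subtype.ext (Prod.ext h4 h3)
  rw [this]

include hL hR iL iR in
/-- a big state covers at most nine words -/
theorem big_le {σ : Type} (M : NFA α σ) (hM : M.accepts = Lg a p cL cR) (q : σ) (hq : Big M q) :
    {e | Cov M q (word a p cL cR e)}.ncard ≤ 9 := by
  obtain ⟨⟨x₁, x₂, hx, hx₁, hx₂⟩, y₁, y₂, hy, hy₁, hy₂⟩ := hq
  have hmem : ∀ x y, Rch M x q → y ∈ M.acceptsFrom {q} → ∃ l r, Adj p l r ∧ x ++ y = W a cL cR l r := by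
    intro x y h1 h2
    have := rch_acc M h1 h2
    rw [hM, mem_Lg] at this
    exact this
  have hlen : ∀ x y, Rch M x q → y ∈ M.acceptsFrom {q} → x.length + y.length = 4 * ℓ + 2 := by
    intro x y h1 h2
    obtain ⟨l, r, _, h⟩ := hmem x y h1 h2
    rw [← List.length_append, h, W_length a cL cR ℓ hL hR]
  have h1 : ℓ ≤ x₁.length := by
    by_contra hcon
    obtain ⟨l, r, _, h⟩ := hmem x₁ y₁ hx₁ hy₁
    obtain ⟨l', r', _, h'⟩ := hmem x₂ y₁ hx₂ hy₁
    exact hx (early a cL cR ℓ hL hR iL h h' (by omega))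
  have h2 : x₁.length ≤ 3 * ℓ + 2 := by
    by_contra hcon
    obtain ⟨l, r, _, h⟩ := hmem x₁ y₁ hx₁ hy₁
    obtain ⟨l', r', _, h'⟩ := hmem x₁ y₂ hx₁ hy₂
    exact hy (late a cL cR ℓ hL hR iR h h' (by omega))
  have hxl : ∀ x, Rch M x q → x.length = x₁.length := by
    intro x h
    have e1 := hlen x y₁ h hy₁
    have e2 := hlen x₁ y₁ hx₁ hy₁
    omega
  -- vertices of prefixes and suffixes
  have hLf : ∀ x y y' l l' r r', Rch M x q → x ++ y = W a cL cR l r → x ++ y' = W a cL cR l' r' → l = l' := by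
    intro x y y' l l' r r' hx h h'
    exact left_eq a cL cR ℓ hL iL h h' (by rw [hxl x hx]; exact h1)
  have hRt : ∀ x x' y l l' r r', Rch M x q → x ++ y = W a cL cR l r → x' ++ y = W a cL cR l' r' → r = r' := by
    intro x x' y l l' r r' hx h h'
    exact right_eq a cL cR ℓ hL hR iR h h' (by rw [hxl x hx]; exact h2)
  -- distinct prefixes have distinct first coordinates
  have hdl : ∀ x x' y y' l l' r r', Rch M x q → Rch M x' q → y ∈ M.acceptsFrom {q} → y' ∈ M.acceptsFrom {q} →
      x ++ y = W a cL cR l r → x' ++ y' = W a cL cR l' r' → x ≠ x' → l.1 ≠ l'.1 := by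
    intro x x' y y' l l' r r' gx gx' gy gy' h h' hne
    obtain ⟨l1, r1, a1, w1⟩ := hmem x y₁ gx hy₁
    obtain ⟨l2, r2, a2, w2⟩ := hmem x y₂ gx hy₂
    obtain ⟨l3, r3, a3, w3⟩ := hmem x' y₁ gx' hy₁
    obtain ⟨l4, r4, a4, w4⟩ := hmem x' y₂ gx' hy₂
    have e1 := hLf x y y₁ l l1 r r1 gx h w1
    have e2 := hLf x y y₂ l l2 r r2 gx h w2
    have e3 := hLf x' y' y₁ l' l3 r' r3 gx' h' w3
    have e4 := hLf x' y' y₂ l' l4 r' r4 gx' h' w4
    have e5 := hRt x x' y₁ l1 l3 r1 r3 gx w1 w3
    have e6 := hRt x x' y₂ l2 l4 r2 r4 gx w2 w4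
    subst e1 e2 e3 e4 e5 e6
    have hll : l ≠ l' := by
      rintro rfl
      exact hne (List.append_cancel_right (w1.trans w3.symm))
    have hrr : r1 ≠ r2 := by
      rintro rfl
      exact hy (List.append_cancel_left (w1.trans w2.symm))
    exact (adj_c4 p hll hrr a1 a2 a3 a4).1
  have hdr : ∀ x x' y y' l l' r r', Rch M x q → Rch M x' q → y ∈ M.acceptsFrom {q} → y' ∈ M.acceptsFrom {q} →
      x ++ y = W a cL cR l r → x' ++ y' = W a cL cR l' r' → y ≠ y' → r.1 ≠ r'.1 := by
    intro x x' y y' l l' r r' gx gx' gy gy' h h' hne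
    obtain ⟨l1, r1, a1, w1⟩ := hmem x₁ y hx₁ gy
    obtain ⟨l2, r2, a2, w2⟩ := hmem x₁ y' hx₁ gy'
    obtain ⟨l3, r3, a3, w3⟩ := hmem x₂ y hx₂ gy
    obtain ⟨l4, r4, a4, w4⟩ := hmem x₂ y' hx₂ gy'
    have e1 := hLf x₁ y y' l1 l2 r1 r2 hx₁ w1 w2
    have e3 := hLf x₂ y y' l3 l4 r3 r4 hx₂ w3 w4
    have e5 := hRt x x₁ y l l1 r r1 gx h w1
    have e6 := hRt x x₂ y l l3 r r3 gx h w3
    have e7 := hRt x' x₁ y' l' l2 r' r2 gx' h' w2
    have e8 := hRt x' x₂ y' l' l4 r' r4 gx' h' w4
    subst e1 e3 e5 e6 e7 e8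
    have hll : l1 ≠ l3 := by
      rintro rfl
      exact hx (List.append_cancel_right (w1.trans w3.symm))
    have hrr : r ≠ r' := by
      rintro rfl
      exact hne (List.append_cancel_left (w1.trans w2.symm))
    exact (adj_c4 p hll hrr a1 a2 a3 a4).2
  have hle : {e | Cov M q (word a p cL cR e)}.ncard ≤ (Set.univ : Set (Fin 3 × Fin 3)).ncard := by
    refine Set.ncard_le_ncard_of_injOn (fun e => (e.1, e.2.1)) (fun _ _ => trivial) ?_ (Set.toFinite _)
    rintro ⟨i, j, t⟩ ⟨x, y, w1, gx, gy⟩ ⟨i', j', t'⟩ ⟨x', y', w2, gx', gy'⟩ hij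
    simp only [Prod.mk.injEq] at hij
    obtain ⟨rfl, rfl⟩ := hij
    have hxx : x = x' := by
      by_contra hne
      exact hdl x x' y y' _ _ _ _ gx gx' gy gy' w1 w2 hne rfl
    have hyy : y = y' := by
      by_contra hne
      exact hdr x x' y y' _ _ _ _ gx gx' gy gy' w1 w2 hne rfl
    subst hxx hyy
    have := word_inj a p cL cR ℓ hL hR iL iR (w1.symm.trans w2)
    exact this
  refine hle.trans ?_
  rw [Set.ncard_univ]
  simp

end final

theorem growth (D : ℕ) : ∃ m : ℕ, (40 * m + 52) * D ≤ 2 ^ m := by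
  have h1 : ∀ r : ℕ, 10 ≤ r → 80 * r + 52 ≤ 2 ^ r := by
    intro r hr
    induction r, hr using Nat.le_induction with
    | base => norm_num
    | succ r hr ih => rw [pow_succ]; omega
  refine ⟨2 * (D + 10), ?_⟩
  have h2 := h1 (D + 10) (by omega)
  have h3 : D ≤ 2 ^ (D + 10) := by
    have := Nat.lt_two_pow_self (n := D + 10)
    omega
  calc (40 * (2 * (D + 10)) + 52) * D = (80 * (D + 10) + 52) * D := by ring
    _ ≤ 2 ^ (D + 10) * 2 ^ (D + 10) := Nat.mul_le_mul h2 h3
    _ = 2 ^ (2 * (D + 10)) := by rw [← pow_add]; congr 1; ring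

theorem main (α : Type) [Finite α] [Nontrivial α] (C : ℕ) :
    ∃ L : Language α, L.IsRegular ∧ C * nsc L < T L := by
  classical
  obtain ⟨a, b, hab⟩ := exists_pair_ne α
  obtain ⟨m, hm⟩ := growth (9 * C + 1)
  obtain ⟨p, hpp, hp1, hp2⟩ := Nat.exists_prime_lt_and_le_two_mul (2 ^ m) (by positivity)
  have : Fact p.Prime := ⟨hpp⟩
  have : NeZero p := ⟨hpp.ne_zero⟩
  obtain ⟨ℓ, hℓ⟩ : ∃ ℓ, ℓ = 10 * (m + 1) + 2 := ⟨_, rfl⟩
  have hcard : 3 * p ^ 10 ≤ 2 ^ ℓ := by
    have h1 : p ≤ 2 ^ (m + 1) := by rw [pow_succ]; omega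
    calc 3 * p ^ 10 ≤ 4 * (2 ^ (m + 1)) ^ 10 := Nat.mul_le_mul (by norm_num) (Nat.pow_le_pow_left h1 10)
      _ = 2 ^ ℓ := by rw [hℓ, ← pow_mul, pow_add]; ring
  obtain ⟨cL, iL, hL⟩ := exists_code (V := VL p) a b hab ℓ (by rw [card_VL]; exact hcard)
  obtain ⟨cR, iR, hR⟩ := exists_code (V := VR p) a b hab ℓ (by rw [card_VR]; exact hcard)
  have hu : ∀ l, (cL l ++ cL l).length = 2 * ℓ := by intro l; simp [hL]; ring
  have hv : ∀ r, (cR r ++ cR r).length = 2 * ℓ := by intro r; simp [hR]; ring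
  have hk : 1 ≤ 2 * ℓ := by omega
  obtain ⟨L, hLdef⟩ : ∃ L, L = Lg a p cL cR := ⟨_, rfl⟩
  -- the automaton with few states
  let M1 := LA a (2 * ℓ) (fun l => cL l ++ cL l) (fun r => cR r ++ cR r) (Adj p) (fun r r' => r = r')
  have hM1 : M1.accepts = L := by
    ext w
    rw [hLdef, mem_Lg, acc_start a (2 * ℓ) _ _ _ _ hu hv hk]
    constructor
    · rintro ⟨l, r, r', h1, rfl, h3⟩
      exact ⟨l, r, h1, h3⟩
    · rintro ⟨l, r, h1, h3⟩
      exact ⟨l, r, r, h1, rfl, h3⟩
  -- the automaton with few transitions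
  let R1 : VL p → Blk p → Prop := fun l t => ∃ i, l = lv p i t
  let R2 : Blk p → VR p → Prop := fun t r => ∃ j, r = rv p j t
  let M2 := LA a (2 * ℓ) (fun l => cL l ++ cL l) (fun r => cR r ++ cR r) R1 R2
  have hM2 : M2.accepts = L := by
    ext w
    rw [hLdef, mem_Lg, acc_start a (2 * ℓ) _ _ _ _ hu hv hk]
    constructor
    · rintro ⟨l, t, r, ⟨i, h1⟩, ⟨j, h2⟩, h3⟩
      exact ⟨l, r, ⟨i, j, t, h1, h2⟩, h3⟩
    · rintro ⟨l, r, ⟨i, j, t, h1, h2⟩, h3⟩
      exact ⟨l, t, r, ⟨i, h1⟩, ⟨j, h2⟩, h3⟩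
  have hcVL : Fintype.card (VL p) = 3 * p ^ 10 := by
    rw [← Nat.card_eq_fintype_card, card_VL]
  have hcVR : Fintype.card (VR p) = 3 * p ^ 10 := by
    rw [← Nat.card_eq_fintype_card, card_VR]
  have hs1 : nsc L ≤ 3 * p ^ 10 * (2 * ℓ + 1) + 1 + (3 * p ^ 10 + 3 * p ^ 10 * (2 * ℓ + 1)) := by
    apply Nat.sInf_le
    have hc : Fintype.card (St (VL p) (VR p) (VR p) (2 * ℓ)) =
        3 * p ^ 10 * (2 * ℓ + 1) + 1 + (3 * p ^ 10 + 3 * p ^ 10 * (2 * ℓ + 1)) := by
      rw [card_St, hcVL, hcVR]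
    let e := Fintype.equivFinOfCardEq hc
    exact ⟨ren M1 e, ren_start M1 e ⟨_, rfl⟩, by rw [ren_accepts, hM1]⟩
  have htc_mem : ∃ n, ∃ M : NFA α (Fin n), IsFor M L ∧ numTrans M = numTrans M2 := by
    let e := Fintype.equivFin (St (VL p) (VR p) (Blk p) (2 * ℓ))
    exact ⟨_, ren M2 e, ⟨ren_start M2 e ⟨_, rfl⟩, by rw [ren_accepts, hM2]⟩, ren_numTrans M2 e⟩
  have htc : tc L ≤ numTrans M2 := Nat.sInf_le htc_mem
  have hr1 : {x : VL p × Blk p | R1 x.1 x.2}.ncard ≤ 3 * Fintype.card (Blk p) := by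
    have hsub : {x : VL p × Blk p | R1 x.1 x.2} ⊆
        (fun x : Fin 3 × Blk p => (lv p x.1 x.2, x.2)) '' Set.univ := by
      rintro ⟨l, t⟩ ⟨i, h⟩
      exact ⟨(i, t), trivial, by simp only at h; rw [h]⟩
    refine (Set.ncard_le_ncard hsub (Set.toFinite _)).trans ?_
    refine (Set.ncard_image_le Set.finite_univ).trans ?_
    rw [Set.ncard_univ, Nat.card_eq_fintype_card, Fintype.card_prod, Fintype.card_fin]
  have hr2 : {x : Blk p × VR p | R2 x.1 x.2}.ncard ≤ 3 * Fintype.card (Blk p) := by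
    have hsub : {x : Blk p × VR p | R2 x.1 x.2} ⊆
        (fun x : Fin 3 × Blk p => (x.2, rv p x.1 x.2)) '' Set.univ := by
      rintro ⟨t, r⟩ ⟨i, h⟩
      exact ⟨(i, t), trivial, by simp only at h; rw [h]⟩
    refine (Set.ncard_le_ncard hsub (Set.toFinite _)).trans ?_
    refine (Set.ncard_image_le Set.finite_univ).trans ?_
    rw [Set.ncard_univ, Nat.card_eq_fintype_card, Fintype.card_prod, Fintype.card_fin]
  have hn2 : numTrans M2 ≤ (Fintype.card (VL p) + Fintype.card (VL p) * (2 * ℓ + 1) +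
      Fintype.card (VR p) * (2 * ℓ + 1)) + {x : VL p × Blk p | R1 x.1 x.2}.ncard +
      {x : Blk p × VR p | R2 x.1 x.2}.ncard :=
    numTrans_LA a (2 * ℓ) (fun l => cL l ++ cL l) (fun r => cR r ++ cR r) R1 R2
  rw [hcVL, hcVR] at hn2
  have hblk := card_blk p
  -- the optimal automaton
  have htcne : {k | ∃ n, ∃ M : NFA α (Fin n), IsFor M L ∧ numTrans M = k}.Nonempty := ⟨_, htc_mem⟩
  obtain ⟨n0, M0, hM0, hM0'⟩ := Nat.sInf_mem htcne
  have hTne : {n | ∃ M : NFA α (Fin n), IsFor M L ∧ numTrans M = tc L}.Nonempty := ⟨n0, M0, hM0, hM0'⟩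
  obtain ⟨N, hN⟩ : ∃ N, N = T L := ⟨_, rfl⟩
  have hNmem : ∃ M : NFA α (Fin N), IsFor M L ∧ numTrans M = tc L := by
    rw [hN]
    exact Nat.sInf_mem hTne
  obtain ⟨M, hM, hM'⟩ := hNmem
  have hp1' : 1 < p := hpp.one_lt
  have hblkpos : 0 < Fintype.card (Blk p) := lt_of_lt_of_le (by positivity) hblk
  have : Nonempty (Blk p) := Fintype.card_pos_iff.1 hblkpos
  obtain ⟨t0⟩ := (inferInstance : Nonempty (Blk p))
  have hlow := lower M (word a p cL cR) (word_inj a p cL cR ℓ hL hR iL iR) (4 * ℓ + 2)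
    (fun e => W_length a cL cR ℓ hL hR _ _) (by rw [hM.2, hLdef]; rfl) hM.1
    (0, 0, t0) (1, 0, t0) (by simp) 9
    (fun q hq => big_le a p cL cR ℓ hL hR iL iR M (by rw [hM.2, hLdef]) q hq)
  simp only [Fintype.card_prod, Fintype.card_fin] at hlow
  refine ⟨L, ?_, ?_⟩
  · refine ⟨Set (Fin n0), inferInstance, M0.toDFA, ?_⟩
    rw [NFA.toDFA_correct, hM0.2]
  · by_contra hcon
    push Not at hcon
    have h1 : T L ≤ C * (3 * p ^ 10 * (2 * ℓ + 1) + 1 + (3 * p ^ 10 + 3 * p ^ 10 * (2 * ℓ + 1))) :=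
      hcon.trans (Nat.mul_le_mul le_rfl hs1)
    obtain ⟨P, hP⟩ : ∃ P, P = p ^ 10 := ⟨_, rfl⟩
    obtain ⟨Bn, hBn⟩ : ∃ B, B = Fintype.card (Blk p) := ⟨_, rfl⟩
    have hP1 : 1 ≤ P := by rw [hP]; exact Nat.one_le_pow _ _ (by omega)
    have hpB : p * P ≤ Bn := by rw [hBn, hP, ← pow_succ']; exact hblk
    rw [← hP] at h1 hn2
    rw [← hBn] at hlow hr1 hr2
    rw [hM', hN] at hlow
    have h2 : 9 * Bn ≤ (3 * P + 3 * P * (2 * ℓ + 1) + 3 * P * (2 * ℓ + 1)) + 3 * Bn + 3 * Bn +
        9 * (C * (3 * P * (2 * ℓ + 1) + 1 + (3 * P + 3 * P * (2 * ℓ + 1)))) := by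
      have hx : 3 * (3 * Bn) = 9 * Bn := by ring
      omega
    have h3 : 3 * P * (2 * ℓ + 1) + 1 + (3 * P + 3 * P * (2 * ℓ + 1)) ≤ 3 * P * (4 * ℓ + 4) := by
      nlinarith
    have h4 : 9 * (C * (3 * P * (2 * ℓ + 1) + 1 + (3 * P + 3 * P * (2 * ℓ + 1)))) ≤
        9 * (C * (3 * P * (4 * ℓ + 4))) := by gcongr
    have h5 : 3 * Bn ≤ 3 * P * ((4 * ℓ + 4) * (9 * C + 1)) := by nlinarith
    have h6 : 4 * ℓ + 4 = 40 * m + 52 := by omega
    rw [h6] at h5
    have h7 : 3 * (p * P) ≤ 3 * P * 2 ^ m := by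
      calc 3 * (p * P) ≤ 3 * Bn := by omega
        _ ≤ 3 * P * ((40 * m + 52) * (9 * C + 1)) := h5
        _ ≤ 3 * P * 2 ^ m := by gcongr
    have h8 : p ≤ 2 ^ m := by
      have : 3 * P * p ≤ 3 * P * 2 ^ m := by linarith
      exact Nat.le_of_mul_le_mul_left this (by omega)
    omega

/-- **Main result.** For every finite alphabet with at least two letters, the ratio `T L / nsc L` is
unbounded over the regular languages. -/
theorem result : ∀ (α : Type) [Finite α] [Nontrivial α] (C : ℕ),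
    ∃ L : Language α, L.IsRegular ∧ C * nsc L < T L :=
  fun α _ _ C => main α C

end Pool.Agent.Results.MP_48fb2a_lc.UnboundedStates
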